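import Pool.Agent.X40.LegDet

/-!
The sets `E(5)`, `E(7)`, `E(9)`, `E(11)`: the values proposed in the question for `m = 7, 9, 11` are wrong,
because `2477 ∈ E(7)`, `1201 ∈ E(9)` and `1597 ∈ E(11)`.

Method: for `m < (p - 1) / 2` the prime `p` is in `E(m)` if and only if it divides one of the fixed integers
`2^(m-2a) ∏_{a < j ≤ m-a} j + ∏_{a ≤ j < m-a} (2m-1-2j)`, `2 a < m`; for the remaining `p ≤ 2 m + 1` the
coefficients `c_a` (see `Pool.Agent.X40.LegDet`) are computed.
-/

set_option autoImplicit false

namespace Pool.Agent.Results.MP_63ede0_nt.ExplicitExceptionalSets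

open Pool.Agent.X40.LD

/-- the set of the primes `p ≡ 1 (mod 4)` dividing `D_p^(m)` -/
def E (m : ℕ) : Set ℕ := {p : ℕ | p.Prime ∧ p % 4 = 1 ∧ (p : ℤ) ∣ D m p}

/-- small primes: the criterion with the coefficients `c_a` -/
lemma small {m p : ℕ} (n : ℕ) [NeZero n] (hp : p.Prime) (hpn : p = 2 * n + 1) :
    (p : ℤ) ∣ D m p ↔ ∃ a : Fin n, c m n p a = 0 := by
  obtain rfl : n = (p - 1) / 2 := by omega
  exact dvd_iff m p hp (by
    rintro rfl
    omega)

lemma small_cases {m p : ℕ} (hm : m ≤ 11) (hp : p.Prime) (hp4 : p % 4 = 1) (h : (p - 1) / 2 ≤ m) :
    p = 5 ∨ p = 13 ∨ p = 17 := by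
  have h1 : p ≤ 24 := by omega
  interval_cases p <;> first | omega | (exfalso; revert hp; norm_num)

theorem E5 : E 5 = {29} := by
  ext p
  simp only [E, Set.mem_ofPred_eq, Set.mem_singleton_iff]
  constructor
  · rintro ⟨hp, hp4, hd⟩
    rcases lt_or_ge 5 ((p - 1) / 2) with h | h
    · obtain ⟨a, ha, hK⟩ := dvd_K (by decide) hp hp4 h hd
      obtain rfl | rfl | rfl : a = 0 ∨ a = 1 ∨ a = 2 := by omega
      · have := mem_of_dvd (l := [3, 5, 11, 29]) (by norm_num) hp (by
          convert hK using 1; decide +kernel)
        simp only [List.mem_cons, List.not_mem_nil, or_false] at this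
        omega
      · have := mem_of_dvd (l := [3, 3, 3, 11]) (by norm_num) hp (by
          convert hK using 1; decide +kernel)
        simp only [List.mem_cons, List.not_mem_nil, or_false] at this
        omega
      · have := mem_of_dvd (l := [11]) (by norm_num) hp (by
          convert hK using 1; decide +kernel)
        simp only [List.mem_cons, List.not_mem_nil, or_false] at this
        omega
    · rcases small_cases (by norm_num) hp hp4 h with rfl | rfl | rfl
      · rw [small 2 hp (by norm_num)] at hd
        exact absurd hd (by decide +kernel)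
      · omega
      · omega
  · rintro rfl
    exact ⟨by norm_num, by norm_num, dvd_of_K (a := 0) (by norm_num) (by norm_num) (by norm_num)
      (by norm_num) (by decide +kernel)⟩

theorem E7 : E 7 = {13, 53, 2477} := by
  ext p
  simp only [E, Set.mem_ofPred_eq, Set.mem_insert_iff, Set.mem_singleton_iff]
  constructor
  · rintro ⟨hp, hp4, hd⟩
    rcases lt_or_ge 7 ((p - 1) / 2) with h | h
    · obtain ⟨a, ha, hK⟩ := dvd_K (by decide) hp hp4 h hd
      obtain rfl | rfl | rfl | rfl : a = 0 ∨ a = 1 ∨ a = 2 ∨ a = 3 := by omega
      · have := mem_of_dvd (l := [3, 3, 5, 7, 2477]) (by norm_num) hp (by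
          convert hK using 1; decide +kernel)
        simp only [List.mem_cons, List.not_mem_nil, or_false] at this
        omega
      · have := mem_of_dvd (l := [3, 3, 5, 743]) (by norm_num) hp (by
          convert hK using 1; decide +kernel)
        simp only [List.mem_cons, List.not_mem_nil, or_false] at this
        omega
      · have := mem_of_dvd (l := [3, 5, 53]) (by norm_num) hp (by
          convert hK using 1; decide +kernel)
        simp only [List.mem_cons, List.not_mem_nil, or_false] at this
        omega
      · have := mem_of_dvd (l := [3, 5]) (by norm_num) hp (by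
          convert hK using 1; decide +kernel)
        simp only [List.mem_cons, List.not_mem_nil, or_false] at this
        omega
    · rcases small_cases (by norm_num) hp hp4 h with rfl | rfl | rfl
      · rw [small 2 hp (by norm_num)] at hd
        exact absurd hd (by decide +kernel)
      · omega
      · omega
  · rintro (rfl | rfl | rfl)
    · refine ⟨by norm_num, by norm_num, ?_⟩
      rw [small 6 (by norm_num) (by norm_num)]
      decide +kernel
    · exact ⟨by norm_num, by norm_num, dvd_of_K (a := 2) (by norm_num) (by norm_num) (by norm_num)
        (by norm_num) (by decide +kernel)⟩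
    · exact ⟨by norm_num, by norm_num, dvd_of_K (a := 0) (by norm_num) (by norm_num) (by norm_num)
        (by norm_num) (by decide +kernel)⟩

theorem E9 : E 9 = {13, 17, 29, 1201} := by
  ext p
  simp only [E, Set.mem_ofPred_eq, Set.mem_insert_iff, Set.mem_singleton_iff]
  constructor
  · rintro ⟨hp, hp4, hd⟩
    rcases lt_or_ge 9 ((p - 1) / 2) with h | h
    · obtain ⟨a, ha, hK⟩ := dvd_K (by decide) hp hp4 h hd
      obtain rfl | rfl | rfl | rfl | rfl : a = 0 ∨ a = 1 ∨ a = 2 ∨ a = 3 ∨ a = 4 := by omega
      · have := mem_of_dvd (l := [3, 3, 3, 3, 3, 5, 7, 19, 29, 47]) (by norm_num) hp (by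
          convert hK using 1; decide +kernel)
        simp only [List.mem_cons, List.not_mem_nil, or_false] at this
        omega
      · have := mem_of_dvd (l := [3, 3, 5, 7, 19, 1201]) (by norm_num) hp (by
          convert hK using 1; decide +kernel)
        simp only [List.mem_cons, List.not_mem_nil, or_false] at this
        omega
      · have := mem_of_dvd (l := [3, 3, 3, 5, 7, 7, 19]) (by norm_num) hp (by
          convert hK using 1; decide +kernel)
        simp only [List.mem_cons, List.not_mem_nil, or_false] at this
        omega
      · have := mem_of_dvd (l := [3, 19, 29]) (by norm_num) hp (by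
          convert hK using 1; decide +kernel)
        simp only [List.mem_cons, List.not_mem_nil, or_false] at this
        omega
      · have := mem_of_dvd (l := [19]) (by norm_num) hp (by
          convert hK using 1; decide +kernel)
        simp only [List.mem_cons, List.not_mem_nil, or_false] at this
        omega
    · rcases small_cases (by norm_num) hp hp4 h with rfl | rfl | rfl
      · rw [small 2 hp (by norm_num)] at hd
        exact absurd hd (by decide +kernel)
      · omega
      · omega
  · rintro (rfl | rfl | rfl | rfl)
    · refine ⟨by norm_num, by norm_num, ?_⟩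
      rw [small 6 (by norm_num) (by norm_num)]
      decide +kernel
    · refine ⟨by norm_num, by norm_num, ?_⟩
      rw [small 8 (by norm_num) (by norm_num)]
      decide +kernel
    · exact ⟨by norm_num, by norm_num, dvd_of_K (a := 0) (by norm_num) (by norm_num) (by norm_num)
        (by norm_num) (by decide +kernel)⟩
    · exact ⟨by norm_num, by norm_num, dvd_of_K (a := 1) (by norm_num) (by norm_num) (by norm_num)
        (by norm_num) (by decide +kernel)⟩

theorem E11 : E 11 = {17, 29, 1597} := by
  ext p
  simp only [E, Set.mem_ofPred_eq, Set.mem_insert_iff, Set.mem_singleton_iff]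
  constructor
  · rintro ⟨hp, hp4, hd⟩
    rcases lt_or_ge 11 ((p - 1) / 2) with h | h
    · obtain ⟨a, ha, hK⟩ := dvd_K (by decide) hp hp4 h hd
      obtain rfl | rfl | rfl | rfl | rfl | rfl : a = 0 ∨ a = 1 ∨ a = 2 ∨ a = 3 ∨ a = 4 ∨ a = 5 := by
        omega
      · have := mem_of_dvd (l := [3, 3, 3, 3, 5, 5, 7, 11, 23, 31, 859]) (by norm_num) hp (by
          convert hK using 1; decide +kernel)
        simp only [List.mem_cons, List.not_mem_nil, or_false] at this
        omega
      · have := mem_of_dvd (l := [3, 3, 3, 3, 3, 5, 5, 7, 7, 23, 367]) (by norm_num) hp (by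
          convert hK using 1; decide +kernel)
        simp only [List.mem_cons, List.not_mem_nil, or_false] at this
        omega
      · have := mem_of_dvd (l := [3, 3, 3, 5, 7, 23, 1597]) (by norm_num) hp (by
          convert hK using 1; decide +kernel)
        simp only [List.mem_cons, List.not_mem_nil, or_false] at this
        omega
      · have := mem_of_dvd (l := [3, 5, 5, 7, 23, 29]) (by norm_num) hp (by
          convert hK using 1; decide +kernel)
        simp only [List.mem_cons, List.not_mem_nil, or_false] at this
        omega
      · have := mem_of_dvd (l := [3, 23, 43]) (by norm_num) hp (by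
          convert hK using 1; decide +kernel)
        simp only [List.mem_cons, List.not_mem_nil, or_false] at this
        omega
      · have := mem_of_dvd (l := [23]) (by norm_num) hp (by
          convert hK using 1; decide +kernel)
        simp only [List.mem_cons, List.not_mem_nil, or_false] at this
        omega
    · rcases small_cases (by norm_num) hp hp4 h with rfl | rfl | rfl
      · rw [small 2 hp (by norm_num)] at hd
        exact absurd hd (by decide +kernel)
      · rw [small 6 hp (by norm_num)] at hd
        exact absurd hd (by decide +kernel)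
      · omega
  · rintro (rfl | rfl | rfl)
    · refine ⟨by norm_num, by norm_num, ?_⟩
      rw [small 8 (by norm_num) (by norm_num)]
      decide +kernel
    · exact ⟨by norm_num, by norm_num, dvd_of_K (a := 3) (by norm_num) (by norm_num) (by norm_num)
        (by norm_num) (by decide +kernel)⟩
    · exact ⟨by norm_num, by norm_num, dvd_of_K (a := 2) (by norm_num) (by norm_num) (by norm_num)
        (by norm_num) (by decide +kernel)⟩

/-- The exact values of `E(5)`, `E(7)`, `E(9)`, `E(11)`, where `E(m)` is the set of the primes
`p ≡ 1 (mod 4)` dividing `D_p^(m)`. -/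
theorem result : E 5 = {29} ∧ E 7 = {13, 53, 2477} ∧ E 9 = {13, 17, 29, 1201} ∧
    E 11 = {17, 29, 1597} := ⟨E5, E7, E9, E11⟩

end Pool.Agent.Results.MP_63ede0_nt.ExplicitExceptionalSets
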