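import Pool.Agent.X40.LegDet

/-!
For every odd `m` only finitely many primes `p ≡ 1 (mod 4)` divide the determinant `D_p^(m)`.

Method: modulo `p` the entries are `(x_j - x_k)^(m + n)`, `n = (p - 1) / 2`, `x_j = j²`, `x_j^n = 1`. So the
matrix is `V diag(c) V'` where `V` is the Vandermonde matrix of the `x_j` and `V'` is its transpose with
permuted rows. For `m < n` the numbers `c_a` are, up to the sign, `C(m+n, a)` (`a > m`) and
`C(m+n, a) + C(m+n, m-a)` (`a ≤ m`); up to a factor prime to `p` the latter is a fixed positive integer.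
-/

set_option autoImplicit false

open Pool.Agent.X40.LD in
/-- For every odd `m` the set of the primes `p ≡ 1 (mod 4)` dividing the determinant
`D m p = det [(j² - k²)^m ((j² - k²) / p)]`, `1 ≤ j, k ≤ (p - 1) / 2`, is finite. -/
theorem Pool.Agent.Results.MP_63ede0_nt.FiniteExceptionalSets.result (m : ℕ) (hm : Odd m) :
    {p : ℕ | p.Prime ∧ p % 4 = 1 ∧ (p : ℤ) ∣ D m p}.Finite := by
  apply (Set.finite_Iic (2 * m + 1 + ∑ a ∈ Finset.range m, K m a)).subset
  rintro p ⟨hp, hp4, hd⟩
  rw [Set.mem_Iic]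
  rcases lt_or_ge m ((p - 1) / 2) with h | h
  · obtain ⟨a, ha, hK⟩ := dvd_K hm hp hp4 h hd
    have h1 := Nat.le_of_dvd (K_pos m a) hK
    have h2 : K m a ≤ ∑ a ∈ Finset.range m, K m a :=
      Finset.single_le_sum (f := fun a => K m a) (fun _ _ => Nat.zero_le _)
        (Finset.mem_range.2 (by omega))
    omega
  · omega
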